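import Pool.Agent.COSB.StmtsA

/-!
# COSB: row ACT (helper13)
-/

set_option autoImplicit false

namespace Pool.Agent.COSB.H13

open Pool.Agent.PAR Pool.Agent.COS

theorem valA_eq (f : Word → Word → Bool) (n k l : ℕ) (h1 h2 F C : Word)
    (e1 : h1.length = hl n k) (e2 : h2.length = hl n k) (e3 : F.length = fl (k * (n * n))) :
    valA f n k l (h1 ++ (h2 ++ (F ++ C))) = (half n k h1 && (half n k h2 &&
      frC (gm f n k (h2.take (n * n)) (h1.drop (n * n))) (k * (n * n)) l F C)) := by
  have a1 : (h1 ++ (h2 ++ (F ++ C))).take (hl n k) = h1 := List.take_left' e1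
  have a2 : (h1 ++ (h2 ++ (F ++ C))).drop (hl n k) = h2 ++ (F ++ C) := List.drop_left' e1
  have a3 : (h2 ++ (F ++ C)).take (hl n k) = h2 := List.take_left' e2
  have a4 : (h2 ++ (F ++ C)).drop (hl n k) = F ++ C := List.drop_left' e2
  have a5 : (F ++ C).take (fl (k * (n * n))) = F := List.take_left' e3
  have a6 : (F ++ C).drop (fl (k * (n * n))) = C := List.drop_left' e3
  unfold valA
  rw [a1, a2, a3, a4, a5, a6]

theorem act (hO : OdcStmt) (hR : RdkStmt) (hP : PrkStmt) (hF : FrkStmt) (hS : SewStmt)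
    (hH : HlfStmt) (hC : FcwStmt) : ActStmt := by
  intro n k l f hk hW
  obtain ⟨o1, o2, -, -, -, o6, o7⟩ := hO
  set N := k * (n * n) with hN
  -- the parity of the number of the frames
  set T : Word → Word → Prop := fun α' β => Odd {t : Fr N | IsFrame {y | Od l (fun c =>
    gm f n k α' β (List.ofFn y) c = true)} t}.ncard with hT
  have s1 : Od (LA n k l) (fun c => valA f n k l c = true) ↔
      Od (hl n k) (fun h1 => Od (hl n k) (fun h2 => Od (fl N) (fun F => Od (cl N l) (fun C =>
        valA f n k l (h1 ++ (h2 ++ (F ++ C))) = true)))) := by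
    unfold LA
    rw [o2]
    apply o1
    intro h1 _
    rw [o2]
    apply o1
    intro h2 _
    rw [o2]
  have s2 : Od (hl n k) (fun h1 => Od (hl n k) (fun h2 => Od (fl N) (fun F => Od (cl N l) (fun C =>
        valA f n k l (h1 ++ (h2 ++ (F ++ C))) = true)))) ↔
      Od (hl n k) (fun h1 => half n k h1 = true ∧ Od (hl n k) (fun h2 => half n k h2 = true ∧
        T (h2.take (n * n)) (h1.drop (n * n)))) := by
    apply o1
    intro h1 e1
    rw [← o6]
    apply o1
    intro h2 e2
    rw [← and_assoc, hT]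
    dsimp only
    rw [← hC (gm f n k (h2.take (n * n)) (h1.drop (n * n))) N l, ← o6]
    apply o1
    intro F e3
    rw [← o6]
    apply o1
    intro C _
    rw [valA_eq f n k l h1 h2 F C e1 e2 e3]
    simp only [Bool.and_eq_true]
    tauto
  have s3 : Od (hl n k) (fun h1 => half n k h1 = true ∧ Od (hl n k) (fun h2 =>
      half n k h2 = true ∧ T (h2.take (n * n)) (h1.drop (n * n)))) ↔
      Odd {a : Gr n | Red a.1 ∧ ∃ A : G2 n k, A.1 = up k a.1 ∧
        Od (hl n k) (fun h2 => half n k h2 = true ∧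
          T (h2.take (n * n)) (enc2 k (A⁻¹).1))}.ncard :=
    hH n k hk (fun _ β => Od (hl n k) (fun h2 => half n k h2 = true ∧ T (h2.take (n * n)) β))
  have s4 : ∀ β : Word, Od (hl n k) (fun h2 => half n k h2 = true ∧ T (h2.take (n * n)) β) ↔
      Odd {a' : Gr n | Red a'.1 ∧ ∃ A' : G2 n k, A'.1 = up k a'.1 ∧ T (enc a'.1) β}.ncard :=
    fun β => hH n k hk (fun α _ => T α β)
  have lift := (hR n k hk).2.2.2.2.1
  have s5 : ∀ (a a' : Gr n) (A : G2 n k), A.1 = up k a.1 →
      (T (enc a'.1) (enc2 k (A⁻¹).1) ↔ (Sec2 k (WS n k l f) a a').Nonempty) := by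
    intro a a' A hA
    rw [hT]
    dsimp only
    rw [hS n k l f hk a a' A hA]
    exact hF n k hk _ hW a a'
  have s6 : {a : Gr n | Red a.1 ∧ ∃ A : G2 n k, A.1 = up k a.1 ∧
        Od (hl n k) (fun h2 => half n k h2 = true ∧
          T (h2.take (n * n)) (enc2 k (A⁻¹).1))} =
      {a : Gr n | Odd {a' : Gr n | Red a.1 ∧ Red a'.1 ∧
        (Sec2 k (WS n k l f) a a').Nonempty}.ncard} := by
    ext a
    simp only [Set.mem_setOf_eq]
    have key : ∀ A : G2 n k, A.1 = up k a.1 →
        {a' : Gr n | Red a'.1 ∧ ∃ A' : G2 n k, A'.1 = up k a'.1 ∧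
          T (enc a'.1) (enc2 k (A⁻¹).1)} =
        {a' : Gr n | Red a'.1 ∧ (Sec2 k (WS n k l f) a a').Nonempty} := by
      intro A hA
      ext a'
      simp only [Set.mem_setOf_eq, s5 a a' A hA]
      constructor
      · rintro ⟨h1, A', _, h2⟩
        exact ⟨h1, h2⟩
      · rintro ⟨h1, h2⟩
        obtain ⟨A', hA'⟩ := lift a'
        exact ⟨h1, A', hA', h2⟩
    by_cases hr : Red a.1
    · constructor
      · rintro ⟨_, A, hA, h⟩
        rw [s4, key A hA] at h
        simpa only [hr, true_and] using h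
      · intro h
        obtain ⟨A, hA⟩ := lift a
        refine ⟨hr, A, hA, ?_⟩
        rw [s4, key A hA]
        simpa only [hr, true_and] using h
    · constructor
      · intro h
        exact absurd h.1 hr
      · intro h
        exfalso
        simp only [hr, false_and, Set.setOf_false, Set.ncard_empty] at h
        exact absurd h (by decide)
  rw [s1, s2, s3, s6, ← o7 (Gr n) (Gr n) (fun a a' => Red a.1 ∧ Red a'.1 ∧
    (Sec2 k (WS n k l f) a a').Nonempty)]
  constructor
  · intro h
    by_contra hne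
    have : {t : Gr n × Gr n | Red t.1.1 ∧ Red t.2.1 ∧
        (Sec2 k (WS n k l f) t.1 t.2).Nonempty} = ∅ := by
      ext t
      simp only [Set.mem_setOf_eq, Set.mem_empty_iff_false, iff_false]
      rintro ⟨_, _, y, u, A, A', _, _, _, hw, _⟩
      exact hne ⟨_, hw⟩
    rw [this, Set.ncard_empty] at h
    exact absurd h (by decide)
  · intro h
    exact hP n k hk _ h hW

end Pool.Agent.COSB.H13
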